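import Pool.Agent.Y489.GE.Fin
import Pool.Agent.Y467.GE.MG
import Pool.Agent.Y467.GE.CP
import Pool.Agent.Y467.GE.STEP
import Pool.Agent.Y812.GE.EN
import Pool.Agent.Y812.GE.REC
import Pool.Agent.Y812.GE.TR
import Pool.Agent.Y165.GE.CG
import Pool.Agent.Y590.GE.BK
import Pool.Agent.Y911.GE.LIFT
import Pool.Agent.Y911.GE.SET
import Pool.Agent.Y50.GE.Om
import Pool.Agent.Y26.GE.KUHN

/-!
# Short periodic geodesics on Lipschitz homogeneous spaces

`X` is a compact metric space in which any two points are joined by a minimal geodesic and minimal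
geodesics between points at distance less than `r` are unique (every closed Riemannian manifold).
A topological group `G` acts continuously on `X` by `lam`-Lipschitz maps and the orbit map of the
point `p` has a continuous local section (for closed manifolds: a Lie group acts transitively). If
the `q`-th homotopy group of `X` is not trivial, `q ≥ 1`, then there is a periodic geodesic of
length at most `2 (1 + lam + ... + lam ^ (q - 1)) diam X`. If `X` has covering dimension at most
`n` and is not contractible, the same holds with `n` in place of `q`.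
-/

set_option autoImplicit false

open Set Topology

namespace Pool.Agent.Results.MP_3eff7f_gt.LipschitzHomogeneous

open Pool.Agent.Y489.GE

theorem result (X G : Type) [MetricSpace X] [CompactSpace X] [Group G] [TopologicalSpace G]
    [IsTopologicalGroup G] [MulAction G X] [ContinuousSMul G X] (p : X) (r lam : ℝ) (hr : 0 < r)
    (hX : GeodSpace X) (hU : UniqGeod X r)
    (hG : ∀ (g : G) (x y : X), dist (g • x) (g • y) ≤ lam * dist x y) (hs : LocSec X G p) :
    (∀ q : ℕ, 1 ≤ q → Nontrivial (HomotopyGroup (Fin q) X p) →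
      ClosedGeod X (2 * (∑ i ∈ Finset.range q, lam ^ i) * Metric.diam (univ : Set X))) ∧
    ∀ n : ℕ, 1 ≤ n → CovDim X n → ¬ ContractibleSpace X →
      ClosedGeod X (2 * (∑ i ∈ Finset.range n, lam ^ i) * Metric.diam (univ : Set X)) :=
  main Pool.Agent.Y467.GE.t_MG Pool.Agent.Y165.GE.t_CG
    (Pool.Agent.Y590.GE.t_BK Pool.Agent.Y812.GE.t_EN)
    (Pool.Agent.Y812.GE.t_TR Pool.Agent.Y911.GE.t_LIFT) Pool.Agent.Y50.GE.t_OM
    (Pool.Agent.Y812.GE.t_REC Pool.Agent.Y467.GE.t_CP Pool.Agent.Y467.GE.t_STEP)
    Pool.Agent.Y911.GE.t_SET Pool.Agent.Y26.GE.t_KUHN X G p r lam hr hX hU hG hs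

end Pool.Agent.Results.MP_3eff7f_gt.LipschitzHomogeneous
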