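import Pool.Agent.Y489.GE.Fin2
import Pool.Agent.Y467.GE.MG
import Pool.Agent.Y467.GE.CP
import Pool.Agent.Y467.GE.STEP
import Pool.Agent.Y812.GE.EN
import Pool.Agent.Y812.GE.REC
import Pool.Agent.Y812.GE.TR
import Pool.Agent.Y165.GE.CG
import Pool.Agent.Y590.GE.BK
import Pool.Agent.Y911.GE.LIFT
import Pool.Agent.Y50.GE.Om
import Pool.Agent.Y26.GE.KUHN
import Pool.Agent.Y686.GE.EIL
import Pool.Agent.Y903.GE.CUT
import Pool.Agent.Y438.GE.Thick
import Pool.Agent.Y427.GE.WID
import Pool.Agent.Y427.GE.BD
import Pool.Agent.Y73.GE.Cone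
import Pool.Agent.Y523.GE.EXT
import Pool.Agent.Y891.GE.NRV
import Pool.Agent.Y891.GE.SETL

/-!
# Short periodic geodesics on Lipschitz homogeneous manifolds: volume and width

`X` is a compact metric space of covering dimension at most `n` in which any two points are joined
by a minimal geodesic and minimal geodesics between points at distance less than `r` are unique,
such that the identity of `X` is not homotopic to a map which factors through a finite polyhedron
of dimension less than `n` (`¬ Dom X n`; all this holds for every closed Riemannian `n`-manifold).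
A topological group acts continuously on `X` by `lam`-Lipschitz maps and all orbit maps have
continuous local sections (for closed manifolds: a Lie group acts transitively). Then there is a
periodic geodesic of length at most `C` times the `n`-th root of the Hausdorff measure (a multiple
of the Riemannian volume), and at most `C * w` if `X` has a finite open cover by sets of diameter at
most `w` such that every point is in at most `n` of them. Here `C` depends only on `n`, `lam`.
-/

set_option autoImplicit false

open Set Topology MeasureTheory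

namespace Pool.Agent.Results.MP_3eff7f_gt.LipschitzHomogeneousVolume

open Pool.Agent.Y489.GE

theorem result (n : ℕ) (hn : 1 ≤ n) (lam : ℝ) (hlam : 1 ≤ lam) :
    ∃ C : ℝ, 0 < C ∧ ∀ (X G : Type) [MetricSpace X] [CompactSpace X] [MeasurableSpace X]
      [BorelSpace X] [Group G] [TopologicalSpace G] [IsTopologicalGroup G] [MulAction G X]
      [ContinuousSMul G X] (r : ℝ), 0 < r → GeodSpace X → UniqGeod X r →
      (∀ (g : G) (x y : X), dist (g • x) (g • y) ≤ lam * dist x y) → (∀ p, LocSec X G p) →
      CovDim X n → ¬ Dom X n →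
      (∀ w : ℝ, 0 < w → Cov X w n → ClosedGeod X (C * w)) ∧
      (μH[(n : ℝ)] (univ : Set X) ≠ ⊤ →
        ClosedGeod X (C * (μH[(n : ℝ)] (univ : Set X)).toReal ^ (1 / (n : ℝ)))) :=
  main2 Pool.Agent.Y467.GE.t_MG Pool.Agent.Y165.GE.t_CG
    (Pool.Agent.Y590.GE.t_BK Pool.Agent.Y812.GE.t_EN)
    (Pool.Agent.Y812.GE.t_TR Pool.Agent.Y911.GE.t_LIFT) Pool.Agent.Y50.GE.t_OM
    (Pool.Agent.Y812.GE.t_REC Pool.Agent.Y467.GE.t_CP Pool.Agent.Y467.GE.t_STEP)
    Pool.Agent.Y891.GE.t_SETL
    (Pool.Agent.Y891.GE.t_NRV
      (Pool.Agent.Y523.GE.t_EXT Pool.Agent.Y73.GE.t_CONE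
        (Pool.Agent.Y427.GE.t_BD Pool.Agent.Y26.GE.t_KUHN)))
    (Pool.Agent.Y427.GE.t_WID (Pool.Agent.Y903.GE.t_CUT Pool.Agent.Y686.GE.t_EIL)
      Pool.Agent.Y438.GE.t_THICK) n hn lam hlam

end Pool.Agent.Results.MP_3eff7f_gt.LipschitzHomogeneousVolume
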